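import Pool.Agent.Helper67.NO.St4

/-!
Project NO (MP_26be5b_ag), module CMM: at a critical bracket the derivations are closed under the
adjoint.
-/

set_option autoImplicit false

namespace Pool.Agent.Helper72.NO

open Pool.Agent.Helper67.NO Matrix
open scoped Matrix.Norms.Frobenius ContDiff Topology ComplexOrder

theorem pCMM (h1 : StCAL) : StCMM := by
  intro n _ _ μ hcrit D hD
  obtain ⟨-, -, -, -, hadj, hbr, -, -, hself, hzero⟩ := h1 n
  apply hzero
  have hd0 : dact Dᴴ (0 : n → Matrix n n ℂ) = 0 := by
    funext i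
    simp [dact, br]
  have e1 : dact (br D Dᴴ) μ = dact D (dact Dᴴ μ) := by
    rw [hbr, hD, hd0, sub_zero]
  have e2 : ipm (dact Dᴴ μ) (dact Dᴴ μ) = ipm μ (dact (br D Dᴴ) μ) := by
    rw [hadj, conjTranspose_conjTranspose, e1]
  have hH : (br D Dᴴ).IsHermitian := by
    unfold Matrix.IsHermitian br
    rw [conjTranspose_sub, conjTranspose_mul, conjTranspose_mul, conjTranspose_conjTranspose]
  have ht : trace (br D Dᴴ) = 0 := by
    unfold br
    rw [trace_sub, trace_mul_comm, sub_self]
  have h3 := hcrit _ hH ht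
  rw [← e2, hself] at h3
  simpa using h3

end Pool.Agent.Helper72.NO
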